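import Pool.Agent.Helper77.TZ2.Rel2

/-!
# Project TZ, block T1c: existence of the data, root spaces of dimension two
-/

set_option autoImplicit false

open Matrix

namespace Pool.Agent.Helper77.TZ2

open Pool.Agent.Helper96.SA Pool.Agent.Helper96.TO Pool.Agent.Helper69.SLN

variable {L : Type} [LieRing L] [LieAlgebra ℝ L] {N : ℕ} {θ : L ≃ₗ⁅ℝ⁆ L} {b : Module.Basis (Fin N) ℝ L} {A : Submodule ℝ L}

/-- the root space as a submodule -/
def wsp (A : Submodule ℝ L) (φ : Module.Dual ℝ A) : Submodule ℝ L where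
  carrier := {x | Wv A φ x}
  add_mem' := by
    intro x y hx hy h
    rw [lie_add, hx h, hy h, smul_add]
  zero_mem' := by
    intro h
    rw [lie_zero, smul_zero]
  smul_mem' := by
    intro c x hx h
    rw [lie_smul, hx h, smul_comm]

theorem exists_scale (h : CartanBasis θ b) {φ : Module.Dual ℝ A} {x : L} (hx : Wv A φ x) (hx0 : x ≠ 0) {s : ℝ} (hs : 0 < s) :
    ∃ t : ℝ, t ≠ 0 ∧ killingForm ℝ L (t • x) (θ (t • x)) = -s := by
  have hp := pos h hx0
  refine ⟨Real.sqrt (s / -killingForm ℝ L x (θ x)), (Real.sqrt_pos.2 (by positivity)).ne', ?_⟩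
  rw [map_smul, map_smul, map_smul, LinearMap.smul_apply, smul_eq_mul, smul_eq_mul, ← mul_assoc, Real.mul_self_sqrt (by positivity)]
  have : killingForm ℝ L x (θ x) ≠ 0 := by
    intro h0
    rw [h0] at hp
    norm_num at hp
  field_simp

/-- a second vector -/
theorem exists_second (h : CartanBasis θ b) {φ : Module.Dual ℝ A} (hd : Module.finrank ℝ (wsp A φ) = 2) (x : L) :
    ∃ y : L, Wv A φ y ∧ y ≠ 0 ∧ killingForm ℝ L x (θ y) = 0 := by
  have hF : Module.Finite ℝ L := Module.Finite.of_basis b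
  let f : wsp A φ →ₗ[ℝ] ℝ := (killingForm ℝ L x) ∘ₗ (θ : L →ₗ[ℝ] L) ∘ₗ (wsp A φ).subtype
  have h1 : LinearMap.ker f ≠ ⊥ := by
    refine LinearMap.ker_ne_bot_of_finrank_lt ?_
    rw [Module.finrank_self, hd]
    norm_num
  obtain ⟨y, hy, hy0⟩ := Submodule.exists_mem_ne_zero_of_ne_bot h1
  exact ⟨y, y.2, fun h0 => hy0 (Subtype.ext h0), LinearMap.mem_ker.1 hy⟩

/-- the linear map with `1 ↦ x`, `i ↦ y` -/
noncomputable def cmap (x y : L) : ℂ →ₗ[ℝ] L := Complex.reLm.smulRight x + Complex.imLm.smulRight y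

theorem cmap_apply (x y : L) (a : ℂ) : cmap x y a = a.re • x + a.im • y := rfl

theorem cmap_one (x y : L) : cmap x y 1 = x := by
  rw [cmap_apply, Complex.one_re, Complex.one_im, one_smul, zero_smul, add_zero]

theorem cmap_I (x y : L) : cmap x y Complex.I = y := by
  rw [cmap_apply, Complex.I_re, Complex.I_im, one_smul, zero_smul, zero_add]

namespace Ctx

variable {r : ℕ} {τ : Module.Dual ℝ A ≃ₗ[ℝ] A} {B : Module.Basis (Fin r) ℝ (Module.Dual ℝ A)} {q : ℝ}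

theorem exists_good (c : Ctx θ b A τ B q) (j0 : Fin r) (hd : Module.finrank ℝ (wsp A (B j0)) = 2) :
    ∃ X : Fin r → ℂ →ₗ[ℝ] L, Good c X := by
  have hq := c.qpos
  have hBr : ∀ j, B j ∈ rootsL A := fun j => by rw [c.hB]; exact Or.inl ⟨j, rfl⟩
  have hx : ∀ j, ∃ x : L, Wv A (B j) x ∧ killingForm ℝ L x (θ x) = -(2 / q) := by
    intro j
    obtain ⟨x, hx0, hx⟩ := (hBr j).2
    change Wv A (B j) x at hx
    obtain ⟨t, -, ht⟩ := exists_scale c.h hx hx0 (s := 2 / q) (by positivity)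
    exact ⟨t • x, hx.smul t, ht⟩
  choose x hx hxn using hx
  obtain ⟨x', hx', hx'n, hxx'⟩ : ∃ x' : L, Wv A (B j0) x' ∧ killingForm ℝ L x' (θ x') = -(2 / q) ∧
      killingForm ℝ L (x j0) (θ x') = 0 := by
    obtain ⟨y, hy, hy0, hy1⟩ := exists_second c.h hd (x j0)
    obtain ⟨t, -, ht⟩ := exists_scale c.h hy hy0 (s := 2 / q) (by positivity)
    exact ⟨t • y, hy.smul t, ht, by rw [map_smul, map_smul, hy1, smul_zero]⟩
  have hy : ∀ j, Wv A (-B j) (-θ (x j)) := fun j => ((hx j).theta c.hA).neg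
  have hE : ∀ j k, Wv A (B k - B j) ⁅-θ (x j), x k⁆ := by
    intro j k
    have := (hy j).lie (hx k)
    rwa [neg_add_eq_sub] at this
  have hxx : ∀ j k, ⁅x j, x k⁆ = 0 := fun j k => ((hx j).lie (hx k)).eq_zero (c.hB.not_add j k).1 (c.hB.not_add j k).2
  have hyy : ∀ j k, ⁅-θ (x j), -θ (x k)⁆ = 0 := by
    intro j k
    have h3 := (hy j).lie (hy k)
    rw [← neg_add] at h3
    refine h3.eq_zero (fun h4 => (c.hB.not_add j k).1 ?_) (neg_ne_zero.2 (c.hB.not_add j k).2)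
    have := c.hB.neg h4
    rwa [neg_neg] at this
  -- `[x j, [y j, x k]] = x k`
  have hr1 : ∀ j k, j ≠ k → ⁅x j, ⁅-θ (x j), x k⁆⁆ = x k := by
    intro j k hjk
    rw [leibniz_lie, hxx, lie_zero, add_zero, lie_neg, neg_lie, c.act_self (hx j) (hx k), hxn, c.hq_ne hjk, ← neg_smul]
    have : -(-(2 / q) * (q / 2)) = 1 := by field_simp
    rw [this, one_smul]
  -- `[[y j0, x j], y j] = y j0`
  have hr2 : ∀ i j, i ≠ j → ⁅⁅-θ (x i), x j⁆, -θ (x j)⁆ = -θ (x i) := by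
    intro i j hij
    rw [lie_lie, hyy, lie_zero, sub_zero, ← lie_skew (-θ (x i)), lie_neg (x j), neg_lie, neg_neg, c.act_self (hx j) (hy i), hxn,
      LinearMap.neg_apply, c.hq_ne hij.symm]
    have : -(2 / q) * -(q / 2) = 1 := by field_simp
    rw [this, one_smul]
  -- norms of `z j`
  have hzn : ∀ j, j ≠ j0 → killingForm ℝ L ⁅-θ (x j0), x j⁆ (θ ⁅-θ (x j0), x j⁆) = -(2 / q) := by
    intro j hj
    have h1 := c.norm_mul hj.symm (hx j0) (hx j0) (hE j0 j)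
    rw [hr1 j0 j hj.symm, hxn, hxn] at h1
    field_simp at h1 ⊢
    linarith
  let X' : Fin r → L := fun j => if j = j0 then x' else ⁅x', ⁅-θ (x j0), x j⁆⁆
  have hX'0 : X' j0 = x' := if_pos rfl
  have hX'1 : ∀ j, j ≠ j0 → X' j = ⁅x', ⁅-θ (x j0), x j⁆⁆ := fun j hj => if_neg hj
  have hX'w : ∀ j, Wv A (B j) (X' j) := by
    intro j
    by_cases hj : j = j0
    · rw [hj, hX'0]
      exact hx'
    · rw [hX'1 j hj]
      have := hx'.lie (hE j0 j)
      rwa [add_sub_cancel] at this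
  have hX'n : ∀ j, killingForm ℝ L (X' j) (θ (X' j)) = -(2 / q) := by
    intro j
    by_cases hj : j = j0
    · rw [hj, hX'0]
      exact hx'n
    · rw [hX'1 j hj]
      have h1 := c.norm_mul (Ne.symm hj) hx' hx' (hE j0 j)
      rw [hx'n, hzn j hj] at h1
      field_simp at h1 ⊢
      linarith
  have hXX' : ∀ j, killingForm ℝ L (x j) (θ (X' j)) = 0 := by
    intro j
    by_cases hj : j = j0
    · rw [hj, hX'0]
      exact hxx'
    · rw [hX'1 j hj]
      have h1 := c.norm_mul (Ne.symm hj) (hx j0) hx' (hE j0 j)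
      rw [hr1 j0 j (Ne.symm hj), hxx', mul_zero, zero_mul, neg_zero] at h1
      linarith
  have hXX'2 : ∀ j, killingForm ℝ L (X' j) (θ (x j)) = 0 := by
    intro j
    rw [← hXX' j, ← kf_theta θ (X' j), c.h.invol, kf_comm]
  -- `[z j, [y j, x k]]`
  have hzE : ∀ j k, j ≠ j0 → j ≠ k → ⁅⁅-θ (x j0), x j⁆, ⁅-θ (x j), x k⁆⁆ =
      ⁅-θ (x j0), x k⁆ + ⁅-θ (x j), ⁅⁅-θ (x j0), x j⁆, x k⁆⁆ := by
    intro j k hj hjk
    rw [leibniz_lie, hr2 j0 j (Ne.symm hj)]
  have hx'E : ∀ j k, j ≠ j0 → j ≠ k → ⁅x', ⁅-θ (x j), x k⁆⁆ = 0 := by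
    intro j k hj hjk
    have h3 := hx'.lie (hE j k)
    rw [add_comm] at h3
    exact h3.eq_zero (c.hB.not_three hjk hj).1 (c.hB.not_three hjk hj).2
  refine ⟨fun j => cmap (x j) (X' j), ⟨?_, ?_, ?_⟩⟩
  · intro j a
    rw [cmap_apply]
    intro h
    rw [lie_add, ((hx j).smul a.re) h, ((hX'w j).smul a.im) h, smul_add]
  · intro j a a'
    rw [cmap_apply, cmap_apply]
    simp only [map_add, map_smul, LinearMap.add_apply, LinearMap.smul_apply, smul_eq_mul, hxn, hX'n, hXX', hXX'2,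
      Complex.mul_re, Complex.conj_re, Complex.conj_im]
    ring
  · intro j k hjk
    rw [cmap_I, cmap_one, cmap_one, cmap_I]
    by_cases hj : j = j0
    · subst hj
      rw [hX'0, hX'1 k (Ne.symm hjk)]
    · rw [hX'1 j hj, lie_lie, hx'E j k hj hjk, lie_zero, sub_zero, hzE j k hj hjk]
      by_cases hk : k = j0
      · subst hk
        have e1 : ⁅⁅-θ (x k), x j⁆, x k⁆ = -x j := by
          rw [← lie_skew, hr1 k j (Ne.symm hjk)]
        rw [e1, hX'0, lie_neg, lie_add, lie_neg, ← lie_skew (-θ (x k)) (x k), ← lie_skew (-θ (x j)) (x j), lie_neg (x k), lie_neg (x j),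
          neg_neg, neg_neg, ← lie_skew x', ← lie_skew x' ⁅x j, _⁆, c.act_self (hx k) hx', c.act_self (hx j) hx', hxn, hxn,
          c.hq_self, c.hq_ne hjk]
        have e2 : -(2 / q) * q = -2 := by field_simp
        have e3 : -(2 / q) * (q / 2) = -1 := by field_simp
        rw [e2, e3]
        module
      · have e1 : ⁅⁅-θ (x j0), x j⁆, x k⁆ = 0 := by
          have h3 := (hE j0 j).lie (hx k)
          exact h3.eq_zero (c.hB.not_three (Ne.symm hj) (Ne.symm hk)).1 (c.hB.not_three (Ne.symm hj) (Ne.symm hk)).2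
        rw [e1, lie_zero, add_zero, hX'1 k hk]

end Ctx

theorem surj_wsp (hF : Module.Finite ℝ L) {φ : Module.Dual ℝ A} (hd : Module.finrank ℝ (wsp A φ) = 2) (f : ℂ →ₗ[ℝ] L)
    (hf : ∀ a, Wv A φ (f a)) (hi : ∀ a, f a = 0 → a = 0) {z : L} (hz : Wv A φ z) : ∃ a, z = f a := by
  let f' : ℂ →ₗ[ℝ] wsp A φ := f.codRestrict (wsp A φ) hf
  have h1 : Function.Injective f' := by
    rw [injective_iff_map_eq_zero]
    intro a ha
    exact hi a (congrArg Subtype.val ha)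
  have h2 : Function.Surjective f' := by
    refine (LinearMap.injective_iff_surjective_of_finrank_eq_finrank ?_).1 h1
    rw [hd, Complex.finrank_real_complex]
  obtain ⟨a, ha⟩ := h2 ⟨z, hz⟩
  exact ⟨a, (congrArg Subtype.val ha).symm⟩

namespace Ctx.Good

variable {r : ℕ} {τ : Module.Dual ℝ A ≃ₗ[ℝ] A} {B : Module.Basis (Fin r) ℝ (Module.Dual ℝ A)} {q : ℝ}
  {c : Ctx θ b A τ B q} {X : Fin r → ℂ →ₗ[ℝ] L}

theorem slDatC [LieAlgebra.IsSimple ℝ L] (g : Good c X) (hr : 2 ≤ r) (hd : ∀ φ ∈ rootsL A, Module.finrank ℝ (wsp A φ) = 2) :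
    SlDatC X (YY θ X) := by
  have hF : Module.Finite ℝ L := Module.Finite.of_basis b
  have hBr : ∀ j, B j ∈ rootsL A := fun j => by rw [c.hB]; exact Or.inl ⟨j, rfl⟩
  have hBn : ∀ j, -B j ∈ rootsL A := fun j => by rw [c.hB]; exact Or.inr (Or.inl ⟨j, rfl⟩)
  have hBs : ∀ j k, j ≠ k → B k - B j ∈ rootsL A := fun j k hjk => by rw [c.hB]; exact Or.inr (Or.inr ⟨j, k, hjk, rfl⟩)
  have hne : (rootsL A).Nonempty := ⟨_, hBr ⟨0, by omega⟩⟩
  have sX : ∀ j z, Wv A (B j) z → ∃ a, z = X j a := fun j z hz => surj_wsp hF (hd _ (hBr j)) (X j) (g.w j) (g.nx j) hz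
  have sY : ∀ j z, Wv A (-B j) z → ∃ a, z = YY θ X j a := fun j z hz => surj_wsp hF (hd _ (hBn j)) (YY θ X j) (g.wY j) (g.ny j) hz
  have sE : ∀ j k, j ≠ k → ∀ z, Wv A (B k - B j) z → ∃ a, z = ⁅YY θ X j 1, X k a⁆ := by
    intro j k hjk z hz
    refine surj_wsp hF (hd _ (hBs j k hjk)) (((LieModule.toEnd ℝ L L (YY θ X j 1)) : L →ₗ[ℝ] L) ∘ₗ X k) (fun a => g.wE j k 1 a) ?_ hz
    intro a ha
    change ⁅YY θ X j 1, X k a⁆ = 0 at ha
    have h1 := g.r1_one hjk a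
    rw [ha, lie_zero] at h1
    exact g.nx k a h1.symm
  obtain ⟨S, hS⟩ : ∃ S : Set L, S = (Set.range fun p : Fin r × ℂ => X p.1 p.2) ∪
    (Set.range fun p : Fin r × ℂ => YY θ X p.1 p.2) ∪
    Set.range fun p : (Fin r × ℂ) × (Fin r × ℂ) => ⁅YY θ X p.1.1 p.1.2, X p.2.1 p.2.2⁆ := ⟨_, rfl⟩
  have mX : ∀ j a, X j a ∈ Submodule.span ℝ S := fun j a => Submodule.subset_span (by rw [hS]; exact Or.inl (Or.inl ⟨(j, a), rfl⟩))
  have mY : ∀ j a, YY θ X j a ∈ Submodule.span ℝ S := fun j a => Submodule.subset_span (by rw [hS]; exact Or.inl (Or.inr ⟨(j, a), rfl⟩))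
  have mE : ∀ j a k a', ⁅YY θ X j a, X k a'⁆ ∈ Submodule.span ℝ S := fun j a k a' =>
    Submodule.subset_span (by rw [hS]; exact Or.inr ⟨((j, a), (k, a')), rfl⟩)
  have hspan : ⊤ ≤ Submodule.span ℝ S := by
    rw [← gens_top c.h c.hA hne, Submodule.span_le]
    rintro z (⟨φ, hφ, hz⟩ | ⟨φ, hφ, y, w, hy, hw, rfl⟩)
    · rw [c.hB] at hφ
      rcases hφ with ⟨j, rfl⟩ | ⟨j, rfl⟩ | ⟨j, k, hjk, rfl⟩
      · obtain ⟨a, rfl⟩ := sX j z hz
        exact mX j a
      · obtain ⟨a, rfl⟩ := sY j z hz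
        exact mY j a
      · obtain ⟨a, rfl⟩ := sE j k hjk z hz
        exact mE _ _ _ _
    · rw [c.hB] at hφ
      rcases hφ with ⟨j, rfl⟩ | ⟨j, rfl⟩ | ⟨j, k, hjk, rfl⟩
      · obtain ⟨a, rfl⟩ := sX j y hy
        obtain ⟨a', rfl⟩ := sY j w hw
        rw [← lie_skew]
        exact Submodule.neg_mem _ (mE _ _ _ _)
      · obtain ⟨a, rfl⟩ := sY j y hy
        rw [neg_neg] at hw
        obtain ⟨a', rfl⟩ := sX j w hw
        exact mE _ _ _ _
      · obtain ⟨a, rfl⟩ := sE j k hjk y hy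
        rw [neg_sub] at hw
        obtain ⟨a', rfl⟩ := sE k j (Ne.symm hjk) w hw
        rw [leibniz_lie, g.yxy hr, g.yxx hr, if_pos rfl, if_neg hjk, if_pos rfl, if_neg hjk, add_zero, sub_zero, lie_neg]
        exact Submodule.add_mem _ (mE _ _ _ _) (Submodule.neg_mem _ (mE _ _ _ _))
  refine ⟨g.xx, g.yy, g.yxx hr, g.yxy hr, g.nx, g.ny, ?_, by rw [← hS]; exact hspan⟩
  intro w h1 h2
  refine center_zero c.h fun z => ?_
  have hz : z ∈ Submodule.span ℝ S := hspan Submodule.mem_top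
  induction hz using Submodule.span_induction with
  | mem z hz =>
    rw [hS] at hz
    rcases hz with (⟨p, rfl⟩ | ⟨p, rfl⟩) | ⟨p, rfl⟩
    · exact h1 _ _
    · exact h2 _ _
    · change ⁅w, ⁅YY θ X p.1.1 p.1.2, X p.2.1 p.2.2⁆⁆ = 0
      rw [leibniz_lie, h2, h1, zero_lie, lie_zero, add_zero]
  | zero => exact lie_zero _
  | add z z' _ _ h3 h4 => rw [lie_add, h3, h4, add_zero]
  | smul t z _ h3 => rw [lie_smul, h3, smul_zero]

end Ctx.Good

end Pool.Agent.Helper77.TZ2
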