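import Pool.Agent.Helper77.TZ2.Dat2
import Pool.Agent.Helper42.TZ.C.SlR

/-!
# Project TZ, block T1b: the elements `a E_(0 j)`, `a E_(j 0)` of `sl(r + 1, ℂ)`

PROOF (compare `slDat` in `Helper69/SLN/Dat.lean`): products of matrix units. `center`: a matrix of trace zero which commutes
with all `a E_(0 j)` and `a E_(j 0)` commutes with all their products, so it is scalar, so it is zero.
`span`: `M = ∑ M 0 j E_(0 j) + ∑ M j 0 E_(j 0) + ∑ M j k (E_(j k) - δ_(j k) E_(0 0))`.

Proved by helper55.
-/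

set_option autoImplicit false

namespace Pool.Agent.Helper77.TZ2

open Pool.Agent.Helper42.TZ

attribute [local instance 100] LieRing.ofAssociativeRing

/-- `a E_(0 j)` -/
noncomputable def cX {r : ℕ} (j : Fin r) : ℂ →ₗ[ℝ] slR (r + 1) ℂ where
  toFun a := ⟨Matrix.single 0 j.succ a, Matrix.trace_single_eq_of_ne _ _ a (Fin.succ_ne_zero j).symm⟩
  map_add' a b := Subtype.ext (Matrix.single_add 0 j.succ a b)
  map_smul' c a := Subtype.ext (Matrix.smul_single c 0 j.succ a).symm

/-- `a E_(j 0)` -/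
noncomputable def cY {r : ℕ} (j : Fin r) : ℂ →ₗ[ℝ] slR (r + 1) ℂ where
  toFun a := ⟨Matrix.single j.succ 0 a, Matrix.trace_single_eq_of_ne _ _ a (Fin.succ_ne_zero j)⟩
  map_add' a b := Subtype.ext (Matrix.single_add j.succ 0 a b)
  map_smul' c a := Subtype.ext (Matrix.smul_single c j.succ 0 a).symm

theorem coe_lie' {r : ℕ} (A B : slR (r + 1) ℂ) : ((⁅A, B⁆ : slR (r + 1) ℂ) : Matrix (Fin (r + 1)) (Fin (r + 1)) ℂ) =
    (A : Matrix (Fin (r + 1)) (Fin (r + 1)) ℂ) * B - B * A := rfl

theorem coe_cX {r : ℕ} (j : Fin r) (a : ℂ) : ((cX j a : slR (r + 1) ℂ) : Matrix (Fin (r + 1)) (Fin (r + 1)) ℂ) =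
    Matrix.single 0 j.succ a := rfl

theorem coe_cY {r : ℕ} (j : Fin r) (a : ℂ) : ((cY j a : slR (r + 1) ℂ) : Matrix (Fin (r + 1)) (Fin (r + 1)) ℂ) =
    Matrix.single j.succ 0 a := rfl

theorem coe_cYX {r : ℕ} (j k : Fin r) (a b : ℂ) : ((⁅cY j a, cX k b⁆ : slR (r + 1) ℂ) : Matrix (Fin (r + 1)) (Fin (r + 1)) ℂ) =
    Matrix.single j.succ k.succ (a * b) - (if j = k then Matrix.single 0 0 (a * b) else 0) := by
  rw [coe_lie', coe_cX, coe_cY, Matrix.single_mul_single_same]
  congr 1
  by_cases h : j = k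
  · subst h
    rw [if_pos rfl, Matrix.single_mul_single_same, mul_comm]
  · rw [if_neg h, Matrix.single_mul_single_of_ne]
    exact fun h1 => h (Fin.succ_injective _ h1).symm

theorem exists_slDatC (r : ℕ) : ∃ X Y : Fin r → ℂ →ₗ[ℝ] slR (r + 1) ℂ, SlDatC X Y := by
  have s0 : ∀ j : Fin r, j.succ ≠ (0 : Fin (r + 1)) := fun j => Fin.succ_ne_zero j
  have s1 : ∀ j : Fin r, (0 : Fin (r + 1)) ≠ j.succ := fun j => (Fin.succ_ne_zero j).symm
  refine ⟨cX, cY, ?_, ?_, ?_, ?_, ?_, ?_, ?_, ?_⟩
  · intro j k a b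
    apply Subtype.ext
    rw [coe_lie', coe_cX, coe_cX, Matrix.single_mul_single_of_ne _ _ _ _ (s0 j), Matrix.single_mul_single_of_ne _ _ _ _ (s0 k),
      sub_zero]
    rfl
  · intro j k a b
    apply Subtype.ext
    rw [coe_lie', coe_cY, coe_cY, Matrix.single_mul_single_of_ne _ _ _ _ (s1 k), Matrix.single_mul_single_of_ne _ _ _ _ (s1 j),
      sub_zero]
    rfl
  · intro j k l a b c
    apply Subtype.ext
    rw [coe_lie', coe_cYX, coe_cX]
    have e0 : ((-(if j = l then (cX k (a * b * c) : slR (r + 1) ℂ) else 0) - (if j = k then cX l (a * b * c) else 0) : slR (r + 1) ℂ) :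
        Matrix (Fin (r + 1)) (Fin (r + 1)) ℂ) =
        -(if j = l then Matrix.single 0 k.succ (a * b * c) else 0) - (if j = k then Matrix.single 0 l.succ (a * b * c) else 0) := by
      split_ifs <;> rfl
    rw [e0]
    rw [sub_mul, mul_sub, Matrix.single_mul_single_of_ne _ _ _ _ (s0 k)]
    have e1 : (if j = k then Matrix.single (0 : Fin (r + 1)) (0 : Fin (r + 1)) (a * b) else 0) * Matrix.single 0 l.succ c =
        (if j = k then Matrix.single 0 l.succ (a * b * c) else 0) := by
      split_ifs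
      · rw [Matrix.single_mul_single_same]
      · rw [Matrix.zero_mul]
    have e2 : Matrix.single (0 : Fin (r + 1)) l.succ c * (if j = k then Matrix.single (0 : Fin (r + 1)) (0 : Fin (r + 1)) (a * b) else 0) = 0 := by
      split_ifs
      · rw [Matrix.single_mul_single_of_ne _ _ _ _ (s0 l)]
      · rw [Matrix.mul_zero]
    have e3 : Matrix.single (0 : Fin (r + 1)) l.succ c * Matrix.single j.succ k.succ (a * b) =
        (if j = l then Matrix.single 0 k.succ (a * b * c) else 0) := by
      by_cases h : j = l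
      · subst h
        rw [if_pos rfl, Matrix.single_mul_single_same]
        congr 1
        ring
      · rw [if_neg h, Matrix.single_mul_single_of_ne]
        exact fun h1 => h (Fin.succ_injective _ h1).symm
    rw [e1, e2, e3]
    abel
  · intro j k l a b c
    apply Subtype.ext
    rw [coe_lie', coe_cYX, coe_cY]
    have e0 : (((if k = l then (cY j (a * b * c) : slR (r + 1) ℂ) else 0) + (if j = k then cY l (a * b * c) else 0) : slR (r + 1) ℂ) :
        Matrix (Fin (r + 1)) (Fin (r + 1)) ℂ) =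
        (if k = l then Matrix.single j.succ 0 (a * b * c) else 0) + (if j = k then Matrix.single l.succ 0 (a * b * c) else 0) := by
      split_ifs <;> rfl
    rw [e0]
    rw [sub_mul, mul_sub, Matrix.single_mul_single_of_ne _ _ _ _ (s1 j)]
    have e1 : (if j = k then Matrix.single (0 : Fin (r + 1)) (0 : Fin (r + 1)) (a * b) else 0) * Matrix.single l.succ (0 : Fin (r + 1)) c = 0 := by
      split_ifs
      · rw [Matrix.single_mul_single_of_ne _ _ _ _ (s1 l)]
      · rw [Matrix.zero_mul]
    have e2 : Matrix.single l.succ (0 : Fin (r + 1)) c * (if j = k then Matrix.single (0 : Fin (r + 1)) (0 : Fin (r + 1)) (a * b) else 0) =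
        (if j = k then Matrix.single l.succ 0 (a * b * c) else 0) := by
      split_ifs
      · rw [Matrix.single_mul_single_same]
        congr 1
        ring
      · rw [Matrix.mul_zero]
    have e3 : Matrix.single j.succ k.succ (a * b) * Matrix.single l.succ (0 : Fin (r + 1)) c =
        (if k = l then Matrix.single j.succ 0 (a * b * c) else 0) := by
      by_cases h : k = l
      · subst h
        rw [if_pos rfl, Matrix.single_mul_single_same]
      · rw [if_neg h, Matrix.single_mul_single_of_ne]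
        exact fun h1 => h (Fin.succ_injective _ h1)
    rw [e1, e2, e3]
    abel
  · intro j a h
    have h1 := congrArg (fun z : slR (r + 1) ℂ => (z : Matrix (Fin (r + 1)) (Fin (r + 1)) ℂ) 0 j.succ) h
    change Matrix.single 0 j.succ a 0 j.succ = 0 at h1
    rwa [Matrix.single_apply_same] at h1
  · intro j a h
    have h1 := congrArg (fun z : slR (r + 1) ℂ => (z : Matrix (Fin (r + 1)) (Fin (r + 1)) ℂ) j.succ 0) h
    change Matrix.single j.succ 0 a j.succ 0 = 0 at h1
    rwa [Matrix.single_apply_same] at h1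
  · intro w hx hy
    have hX : ∀ l : Fin r, (w : Matrix (Fin (r + 1)) (Fin (r + 1)) ℂ) * Matrix.single 0 l.succ 1 =
        Matrix.single 0 l.succ 1 * (w : Matrix (Fin (r + 1)) (Fin (r + 1)) ℂ) := by
      intro l
      have h1 := congrArg (fun z : slR (r + 1) ℂ => (z : Matrix (Fin (r + 1)) (Fin (r + 1)) ℂ)) (hx l 1)
      change (w : Matrix (Fin (r + 1)) (Fin (r + 1)) ℂ) * Matrix.single 0 l.succ 1 -
        Matrix.single 0 l.succ 1 * (w : Matrix (Fin (r + 1)) (Fin (r + 1)) ℂ) = 0 at h1
      exact sub_eq_zero.1 h1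
    have hY : ∀ l : Fin r, (w : Matrix (Fin (r + 1)) (Fin (r + 1)) ℂ) * Matrix.single l.succ 0 1 =
        Matrix.single l.succ 0 1 * (w : Matrix (Fin (r + 1)) (Fin (r + 1)) ℂ) := by
      intro l
      have h1 := congrArg (fun z : slR (r + 1) ℂ => (z : Matrix (Fin (r + 1)) (Fin (r + 1)) ℂ)) (hy l 1)
      change (w : Matrix (Fin (r + 1)) (Fin (r + 1)) ℂ) * Matrix.single l.succ 0 1 -
        Matrix.single l.succ 0 1 * (w : Matrix (Fin (r + 1)) (Fin (r + 1)) ℂ) = 0 at h1
      exact sub_eq_zero.1 h1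
    have hoff : ∀ i j : Fin (r + 1), i ≠ j → (w : Matrix (Fin (r + 1)) (Fin (r + 1)) ℂ) i j = 0 := by
      intro i j hij
      refine Fin.cases (fun hij => ?_) (fun i hij => ?_) i hij
      · refine Fin.cases (fun hij => absurd rfl hij) (fun j _ => ?_) j hij
        have h1 := congrFun (congrFun (hY j) j.succ) j.succ
        rw [Matrix.mul_single_apply_of_ne _ _ _ _ _ (s0 j), Matrix.single_mul_apply_same, one_mul] at h1
        exact h1.symm
      · have h1 := congrFun (congrFun (hX i) 0) j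
        rw [Matrix.mul_single_apply_of_ne _ _ _ _ _ (Ne.symm hij), Matrix.single_mul_apply_same, one_mul] at h1
        exact h1.symm
    have hdiag : ∀ l : Fin r, (w : Matrix (Fin (r + 1)) (Fin (r + 1)) ℂ) l.succ l.succ = (w : Matrix (Fin (r + 1)) (Fin (r + 1)) ℂ) 0 0 := by
      intro l
      have h1 := congrFun (congrFun (hX l) 0) l.succ
      rw [Matrix.mul_single_apply_same, Matrix.single_mul_apply_same, one_mul, mul_one] at h1
      exact h1.symm
    have htr : (w : Matrix (Fin (r + 1)) (Fin (r + 1)) ℂ).trace = 0 := w.2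
    rw [Matrix.trace, Fin.sum_univ_succ] at htr
    simp only [Matrix.diag_apply, hdiag, Finset.sum_const, Finset.card_univ, Fintype.card_fin, nsmul_eq_mul] at htr
    have h00 : (w : Matrix (Fin (r + 1)) (Fin (r + 1)) ℂ) 0 0 = 0 := by
      have h2 : ((1 : ℂ) + (r : ℂ)) * (w : Matrix (Fin (r + 1)) (Fin (r + 1)) ℂ) 0 0 = 0 := by
        rw [add_mul, one_mul]
        exact htr
      refine (mul_eq_zero.1 h2).resolve_left ?_
      rw [add_comm]
      exact Nat.cast_add_one_ne_zero r
    apply Subtype.ext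
    ext i j
    by_cases hij : i = j
    · subst hij
      refine Fin.cases ?_ (fun i => ?_) i
      · exact h00
      · exact (hdiag i).trans h00
    · exact hoff i j hij
  · intro M _
    have hM : M = ∑ j, cX j ((M : Matrix (Fin (r + 1)) (Fin (r + 1)) ℂ) 0 (Fin.succ j)) +
        ∑ j, cY j ((M : Matrix (Fin (r + 1)) (Fin (r + 1)) ℂ) (Fin.succ j) 0) +
        ∑ p : Fin r × Fin r, ⁅cY p.1 ((M : Matrix (Fin (r + 1)) (Fin (r + 1)) ℂ) (Fin.succ p.1) (Fin.succ p.2)), cX p.2 1⁆ := by
      apply Subtype.ext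
      have hc : ∀ (a b c : slR (r + 1) ℂ), ((a + b + c : slR (r + 1) ℂ) : Matrix (Fin (r + 1)) (Fin (r + 1)) ℂ) =
        (a : Matrix (Fin (r + 1)) (Fin (r + 1)) ℂ) + b + c := fun _ _ _ => rfl
      rw [hc]
      have hs : ∀ {ι : Type} (s : Finset ι) (f : ι → slR (r + 1) ℂ), ((∑ i ∈ s, f i : slR (r + 1) ℂ) : Matrix (Fin (r + 1)) (Fin (r + 1)) ℂ) =
          ∑ i ∈ s, (f i : Matrix (Fin (r + 1)) (Fin (r + 1)) ℂ) := by
        intro ι s f
        exact map_sum ((slR (r + 1) ℂ).toSubmodule.subtype) (fun i => f i) s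
      rw [hs, hs, hs]
      simp only [coe_cYX, coe_cX, coe_cY, mul_one]
      have htr : (M : Matrix (Fin (r + 1)) (Fin (r + 1)) ℂ).trace = 0 := M.2
      rw [Matrix.trace, Fin.sum_univ_succ] at htr
      simp only [Matrix.diag_apply] at htr
      have hite : ∀ (p : Fin r × Fin r) (a b : Fin (r + 1)), (if p.1 = p.2 then
          Matrix.single (0 : Fin (r + 1)) (0 : Fin (r + 1)) ((M : Matrix (Fin (r + 1)) (Fin (r + 1)) ℂ) p.1.succ p.2.succ) else 0) a b =
          if p.1 = p.2 then (if 0 = a ∧ 0 = b then (M : Matrix (Fin (r + 1)) (Fin (r + 1)) ℂ) p.1.succ p.2.succ else 0) else 0 := by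
        intro p a b
        split_ifs with h1 h2
        · rw [Matrix.single_apply, if_pos h2]
        · rw [Matrix.single_apply, if_neg h2]
        · rfl
      ext a b
      simp only [Matrix.add_apply, Matrix.sum_apply, Matrix.sub_apply, hite, Matrix.single_apply]
      refine Fin.cases ?_ (fun a => ?_) a <;> refine Fin.cases ?_ (fun b => ?_) b
      · simp [Fintype.sum_prod_type]
        linear_combination htr
      · simp [(Fin.succ_injective r).eq_iff, s1, s0]
      · simp [(Fin.succ_injective r).eq_iff, s1, s0]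
      · simp [(Fin.succ_injective r).eq_iff, s1, Fintype.sum_prod_type, ite_and]
    rw [hM]
    refine Submodule.add_mem _ (Submodule.add_mem _ ?_ ?_) ?_
    · exact Submodule.sum_mem _ fun j _ => Submodule.subset_span (Or.inl (Or.inl ⟨(j, _), rfl⟩))
    · exact Submodule.sum_mem _ fun j _ => Submodule.subset_span (Or.inl (Or.inr ⟨(j, _), rfl⟩))
    · exact Submodule.sum_mem _ fun p _ => Submodule.subset_span (Or.inr ⟨((p.1, _), (p.2, 1)), rfl⟩)

end Pool.Agent.Helper77.TZ2
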