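import Mathlib

/-!
# Project TZ, block T1a: an abstract characterisation of `sl(r + 1, ℂ)` as a real Lie algebra

`SlDatC X Y`: `X j a`, `Y j a` (`a ∈ ℂ`) satisfy the relations of `a E_(0 j)`, `a E_(j 0)`, the elements
`X j a`, `Y j a`, `[Y j a, X k b]` span `L`, and `center`.

PROOF of `iso` (compare `Helper69/SLN/Dat.lean`, which is the case `ℝ`). Put `Z j k a = [Y j a, X k 1]`.
(1) `[Y j a, X k b] = Z j k (a b)`: the difference commutes with all `X l c`, `Y l c` by `yxx`, `yxy`; `center`.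
(2) The real linear map `Φ : (Fin r → ℂ) × (Fin r → ℂ) × (Fin r → Fin r → ℂ) → L`,
`Φ (a, b, c) = ∑ X j (a j) + ∑ Y j (b j) + ∑ Z j k (c j k)`, is onto by `span` and (1) and injective:
`[[·, X l 1], X l 1]` gives `X l (2 b l) = 0`, `[[·, Y l 1], Y l 1]` gives `Y l (2 a l) = 0`; if `∑ X k (u k) = 0`
then `[[Y m 1, X m 1], ·]` gives `u m = 0`; `[·, X l 1]` of the rest gives `c l k + δ_(l k) T = 0`, `T = ∑ c j j`, so
`(1 + r) T = 0`.
(3) `e = Φ' ∘ Φ⁻¹ : L → L'` maps `X j a`, `Y j a`, `[Y j a, X k b]` to `X' j a`, `Y' j a`, `[Y' j a, X' k b]`. It preserves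
the brackets of these elements by `xx`, `yy`, `yxx`, `yxy` and
`[[Y j a, X k b], [Y l c, X m d]] = δ_(k l) [Y j (a b c), X m d] - δ_(j m) [Y l c, X k (a b d)]` (Jacobi; as `exex`).
-/

set_option autoImplicit false

namespace Pool.Agent.Helper77.TZ2

/-- The relations of the matrices `a E_(0 j)` and `a E_(j 0)`, `a ∈ ℂ`. -/
structure SlDatC {L : Type} [LieRing L] [LieAlgebra ℝ L] {r : ℕ} (X Y : Fin r → ℂ →ₗ[ℝ] L) : Prop where
  xx : ∀ j k a b, ⁅X j a, X k b⁆ = 0
  yy : ∀ j k a b, ⁅Y j a, Y k b⁆ = 0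
  yxx : ∀ j k l a b c, ⁅⁅Y j a, X k b⁆, X l c⁆ =
    -(if j = l then X k (a * b * c) else 0) - (if j = k then X l (a * b * c) else 0)
  yxy : ∀ j k l a b c, ⁅⁅Y j a, X k b⁆, Y l c⁆ =
    (if k = l then Y j (a * b * c) else 0) + (if j = k then Y l (a * b * c) else 0)
  nx : ∀ j a, X j a = 0 → a = 0
  ny : ∀ j a, Y j a = 0 → a = 0
  center : ∀ w : L, (∀ l c, ⁅w, X l c⁆ = 0) → (∀ l c, ⁅w, Y l c⁆ = 0) → w = 0
  span : ⊤ ≤ Submodule.span ℝ ((Set.range fun p : Fin r × ℂ => X p.1 p.2) ∪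
    (Set.range fun p : Fin r × ℂ => Y p.1 p.2) ∪
    Set.range fun p : (Fin r × ℂ) × (Fin r × ℂ) => ⁅Y p.1.1 p.1.2, X p.2.1 p.2.2⁆)

variable {L : Type} [LieRing L] [LieAlgebra ℝ L] {L' : Type} [LieRing L'] [LieAlgebra ℝ L'] {r : ℕ}
  {X Y : Fin r → ℂ →ₗ[ℝ] L} {X' Y' : Fin r → ℂ →ₗ[ℝ] L'}

namespace SlDatC

/-- Step (1): `[Y j a, X k b]` depends only on `a b`. -/
theorem yx_eq (h : SlDatC X Y) (j k : Fin r) (a b : ℂ) : ⁅Y j a, X k b⁆ = ⁅Y j (a * b), X k 1⁆ := by
  rw [← sub_eq_zero]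
  refine h.center _ (fun l c => ?_) (fun l c => ?_)
  · rw [sub_lie, h.yxx, h.yxx, mul_one, sub_self]
  · rw [sub_lie, h.yxy, h.yxy, mul_one, sub_self]

theorem exex (h : SlDatC X Y) (j k l m : Fin r) (a b c d : ℂ) : ⁅⁅Y j a, X k b⁆, ⁅Y l c, X m d⁆⁆ =
    (if k = l then ⁅Y j (a * b * c), X m d⁆ else 0) - (if j = m then ⁅Y l c, X k (a * b * d)⁆ else 0) := by
  rw [leibniz_lie, h.yxy, h.yxx, add_lie, lie_sub, lie_neg]
  have e1 : ⁅(if j = k then Y l (a * b * c) else 0), X m d⁆ = ⁅Y l c, (if j = k then X m (a * b * d) else 0)⁆ := by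
    split_ifs
    · rw [h.yx_eq, h.yx_eq l m c]
      congr 2
      ring
    · rw [zero_lie, lie_zero]
  have e2 : ⁅(if k = l then Y j (a * b * c) else 0), X m d⁆ = (if k = l then ⁅Y j (a * b * c), X m d⁆ else 0) := by
    split_ifs
    · rfl
    · rw [zero_lie]
  have e3 : ⁅Y l c, (if j = m then X k (a * b * d) else 0)⁆ = (if j = m then ⁅Y l c, X k (a * b * d)⁆ else 0) := by
    split_ifs
    · rfl
    · rw [lie_zero]
  rw [e1, e2, e3]
  abel

/-- The parametrisation. -/
noncomputable def par (X Y : Fin r → ℂ →ₗ[ℝ] L) : ((Fin r → ℂ) × (Fin r → ℂ) × (Fin r → Fin r → ℂ)) →ₗ[ℝ] L where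
  toFun u := ∑ j, X j (u.1 j) + (∑ j, Y j (u.2.1 j) + ∑ j, ∑ k, ⁅Y j (u.2.2 j k), X k 1⁆)
  map_add' u v := by
    simp only [Prod.fst_add, Prod.snd_add, Pi.add_apply, map_add, add_lie, Finset.sum_add_distrib]
    abel
  map_smul' c u := by
    simp only [Prod.smul_fst, Prod.smul_snd, Pi.smul_apply, map_smul, smul_lie, ← Finset.smul_sum, ← smul_add,
      RingHom.id_apply]

theorem par_apply (u : (Fin r → ℂ) × (Fin r → ℂ) × (Fin r → Fin r → ℂ)) :
    par X Y u = ∑ j, X j (u.1 j) + (∑ j, Y j (u.2.1 j) + ∑ j, ∑ k, ⁅Y j (u.2.2 j k), X k 1⁆) := rfl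

theorem par_x (j : Fin r) (a : ℂ) : par X Y (Pi.single j a, 0, 0) = X j a := by
  rw [par_apply]
  simp only [Pi.zero_apply, map_zero, zero_lie, Finset.sum_const_zero, add_zero]
  rw [Finset.sum_eq_single j]
  · rw [Pi.single_eq_same]
  · intro k _ hk
    rw [Pi.single_eq_of_ne hk, map_zero]
  · intro hj
    exact absurd (Finset.mem_univ j) hj

theorem par_y (j : Fin r) (a : ℂ) : par X Y (0, Pi.single j a, 0) = Y j a := by
  rw [par_apply]
  simp only [Pi.zero_apply, map_zero, zero_lie, Finset.sum_const_zero, add_zero, zero_add]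
  rw [Finset.sum_eq_single j]
  · rw [Pi.single_eq_same]
  · intro k _ hk
    rw [Pi.single_eq_of_ne hk, map_zero]
  · intro hj
    exact absurd (Finset.mem_univ j) hj

theorem par_z (j k : Fin r) (a : ℂ) : par X Y (0, 0, Pi.single j (Pi.single k a)) = ⁅Y j a, X k 1⁆ := by
  rw [par_apply]
  simp only [Pi.zero_apply, map_zero, Finset.sum_const_zero, zero_add]
  rw [Finset.sum_eq_single j, Finset.sum_eq_single k]
  · rw [Pi.single_eq_same, Pi.single_eq_same]
  · intro l _ hl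
    rw [Pi.single_eq_same, Pi.single_eq_of_ne hl, map_zero, zero_lie]
  · intro hk
    exact absurd (Finset.mem_univ k) hk
  · intro l _ hl
    refine Finset.sum_eq_zero fun k _ => ?_
    rw [Pi.single_eq_of_ne hl, Pi.zero_apply, map_zero, zero_lie]
  · intro hj
    exact absurd (Finset.mem_univ j) hj

theorem linX (h : SlDatC X Y) (u : Fin r → ℂ) (hu : ∑ k, X k (u k) = 0) (m : Fin r) : u m = 0 := by
  have h1 : ∑ k, ⁅⁅Y m 1, X m 1⁆, X k (u k)⁆ = 0 := by
    have := congrArg (fun z => ⁅⁅Y m 1, X m 1⁆, z⁆) hu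
    simp only [lie_sum, lie_zero] at this
    exact this
  have h2 : ∑ k, ⁅⁅Y m 1, X m 1⁆, X k (u k)⁆ = -X m (u m) - ∑ k, X k (u k) := by
    have e : ∀ k, ⁅⁅Y m 1, X m 1⁆, X k (u k)⁆ = -(if m = k then X m (u k) else 0) - X k (u k) := by
      intro k
      rw [h.yxx, if_pos rfl, one_mul, one_mul]
    simp only [e]
    rw [Finset.sum_sub_distrib, Finset.sum_neg_distrib, Finset.sum_ite_eq, if_pos (Finset.mem_univ m)]
  rw [h2, hu, sub_zero, neg_eq_zero] at h1
  exact h.nx m _ h1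

theorem par_injective (h : SlDatC X Y) : Function.Injective (par X Y) := by
  rw [injective_iff_map_eq_zero]
  rintro ⟨a, b, c⟩ hu
  rw [par_apply] at hu
  simp only at hu
  have hb : ∀ l, b l = 0 := by
    intro l
    have h1 := congrArg (fun z => ⁅⁅z, X l 1⁆, X l 1⁆) hu
    simp only [add_lie, sum_lie, zero_lie] at h1
    have e1 : ∀ j, ⁅⁅X j (a j), X l 1⁆, X l 1⁆ = 0 := fun j => by rw [h.xx, zero_lie]
    have e2 : ∀ j k, ⁅⁅⁅Y j (c j k), X k 1⁆, X l 1⁆, X l 1⁆ = 0 := fun j k => by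
      rw [h.yxx, sub_lie, neg_lie]
      split_ifs <;> simp only [h.xx, zero_lie, neg_zero, sub_zero]
    have e3 : ∀ j, ⁅⁅Y j (b j), X l 1⁆, X l 1⁆ = if j = l then -X l (2 * b j) else 0 := fun j => by
      rw [h.yxx]
      split_ifs with hj
      · rw [two_mul, map_add, mul_one, mul_one]
        abel
      · rw [neg_zero, sub_zero]
    simp only [e1, e2, e3, Finset.sum_const_zero, zero_add, add_zero] at h1
    rw [Finset.sum_ite_eq', if_pos (Finset.mem_univ l), neg_eq_zero] at h1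
    have h2 := h.nx l _ h1
    exact (mul_eq_zero.1 h2).resolve_left two_ne_zero
  have ha : ∀ l, a l = 0 := by
    intro l
    have h1 := congrArg (fun z => ⁅⁅z, Y l 1⁆, Y l 1⁆) hu
    simp only [add_lie, sum_lie, zero_lie] at h1
    have e1 : ∀ j, ⁅⁅Y j (b j), Y l 1⁆, Y l 1⁆ = 0 := fun j => by rw [h.yy, zero_lie]
    have e2 : ∀ j k, ⁅⁅⁅Y j (c j k), X k 1⁆, Y l 1⁆, Y l 1⁆ = 0 := fun j k => by
      rw [h.yxy, add_lie]
      split_ifs <;> simp only [h.yy, zero_lie, add_zero]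
    have e3 : ∀ j, ⁅⁅X j (a j), Y l 1⁆, Y l 1⁆ = if j = l then -Y l (2 * a j) else 0 := fun j => by
      rw [← lie_skew (X j (a j)) (Y l 1), neg_lie, h.yxy]
      by_cases hj : j = l
      · rw [if_pos hj, if_pos hj.symm, if_pos hj, two_mul, map_add, one_mul, mul_one]
      · rw [if_neg hj, if_neg (fun hh => hj hh.symm), if_neg hj, add_zero, neg_zero]
    simp only [e1, e2, e3, Finset.sum_const_zero, add_zero] at h1
    rw [Finset.sum_ite_eq', if_pos (Finset.mem_univ l), neg_eq_zero] at h1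
    have h2 := h.ny l _ h1
    exact (mul_eq_zero.1 h2).resolve_left two_ne_zero
  have hc0 : ∑ j, ∑ k, ⁅Y j (c j k), X k 1⁆ = 0 := by
    simp only [ha, hb, map_zero, Finset.sum_const_zero, zero_add] at hu
    exact hu
  obtain ⟨T, hT⟩ : ∃ T, T = ∑ j, c j j := ⟨_, rfl⟩
  have hrel : ∀ l k, c l k + (if k = l then T else 0) = 0 := by
    intro l
    apply h.linX
    have h1 := congrArg (fun z => ⁅z, X l 1⁆) hc0
    simp only [sum_lie, zero_lie, h.yxx, mul_one] at h1
    have e1 : ∀ j, ∑ k, (-(if j = l then X k (c j k) else 0) - (if j = k then X l (c j k) else 0)) =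
        -(if j = l then ∑ k, X k (c j k) else 0) - X l (c j j) := by
      intro j
      rw [Finset.sum_sub_distrib, Finset.sum_neg_distrib, Finset.sum_ite_eq, if_pos (Finset.mem_univ j)]
      congr 2
      split_ifs
      · rfl
      · exact Finset.sum_const_zero
    simp only [e1] at h1
    rw [Finset.sum_sub_distrib, Finset.sum_neg_distrib, Finset.sum_ite_eq', if_pos (Finset.mem_univ l),
      ← map_sum, ← hT] at h1
    have e2 : ∀ k, X k (c l k + if k = l then T else 0) = X k (c l k) + if k = l then X k T else 0 := by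
      intro k
      rw [map_add]
      split_ifs
      · rfl
      · rw [map_zero]
    simp only [e2, Finset.sum_add_distrib]
    rw [Finset.sum_ite_eq', if_pos (Finset.mem_univ l), ← neg_eq_zero, ← h1]
    abel
  have hT0 : T = 0 := by
    have h1 : ∑ l : Fin r, (c l l + T) = 0 := by
      refine Finset.sum_eq_zero fun l _ => ?_
      have := hrel l l
      rwa [if_pos rfl] at this
    rw [Finset.sum_add_distrib, ← hT, Finset.sum_const, Finset.card_univ, Fintype.card_fin, nsmul_eq_mul] at h1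
    have h2 : (1 + (r : ℂ)) * T = 0 := by linear_combination h1
    have h3 : (1 + (r : ℂ)) ≠ 0 := by
      have : ((r + 1 : ℕ) : ℂ) ≠ 0 := Nat.cast_ne_zero.2 (Nat.succ_ne_zero r)
      intro h4
      apply this
      push_cast
      rw [add_comm]
      exact h4
    exact (mul_eq_zero.1 h2).resolve_left h3
  have hc : ∀ j k, c j k = 0 := by
    intro j k
    have := hrel j k
    rw [hT0] at this
    simpa using this
  have e1 : a = 0 := funext ha
  have e2 : b = 0 := funext hb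
  have e3 : c = 0 := funext fun j => funext fun k => hc j k
  rw [e1, e2, e3]
  rfl

theorem par_surjective (h : SlDatC X Y) : Function.Surjective (par X Y) := by
  rw [← LinearMap.range_eq_top, eq_top_iff]
  refine h.span.trans (Submodule.span_le.2 ?_)
  rintro z ((⟨⟨j, a⟩, rfl⟩ | ⟨⟨j, a⟩, rfl⟩) | ⟨⟨⟨j, a⟩, ⟨k, b⟩⟩, rfl⟩)
  · exact ⟨_, par_x j a⟩
  · exact ⟨_, par_y j a⟩
  · refine ⟨_, (par_z j k (a * b)).trans ?_⟩
    exact (h.yx_eq j k a b).symm

/-- The parametrisation is an isomorphism of vector spaces. -/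
noncomputable def equiv (h : SlDatC X Y) : ((Fin r → ℂ) × (Fin r → ℂ) × (Fin r → Fin r → ℂ)) ≃ₗ[ℝ] L :=
  LinearEquiv.ofBijective (par X Y) ⟨h.par_injective, h.par_surjective⟩

theorem equiv_apply (h : SlDatC X Y) (u : (Fin r → ℂ) × (Fin r → ℂ) × (Fin r → Fin r → ℂ)) :
    h.equiv u = par X Y u := rfl

end SlDatC

/-- Two Lie algebras with such elements are isomorphic. -/
theorem SlDatC.iso (h : SlDatC X Y) (h' : SlDatC X' Y') : Nonempty (L ≃ₗ⁅ℝ⁆ L') := by
  obtain ⟨e, he⟩ : ∃ e : L ≃ₗ[ℝ] L', e = h.equiv.symm.trans h'.equiv := ⟨_, rfl⟩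
  have hpar : ∀ u, e (par X Y u) = par X' Y' u := by
    intro u
    rw [he, LinearEquiv.trans_apply, ← h.equiv_apply, LinearEquiv.symm_apply_apply, h'.equiv_apply]
  have ex : ∀ j a, e (X j a) = X' j a := fun j a => by
    rw [← par_x (X := X) (Y := Y), hpar, par_x]
  have ey : ∀ j a, e (Y j a) = Y' j a := fun j a => by
    rw [← par_y (X := X) (Y := Y), hpar, par_y]
  have ez : ∀ j k a b, e ⁅Y j a, X k b⁆ = ⁅Y' j a, X' k b⁆ := fun j k a b => by
    rw [h.yx_eq, h'.yx_eq, ← par_z (X := X) (Y := Y), hpar, par_z]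
  have exi : ∀ (p : Prop) [Decidable p] j a, e (if p then X j a else 0) = if p then X' j a else 0 := by
    intro p _ j a
    split_ifs
    · exact ex j a
    · exact map_zero e
  have eyi : ∀ (p : Prop) [Decidable p] j a, e (if p then Y j a else 0) = if p then Y' j a else 0 := by
    intro p _ j a
    split_ifs
    · exact ey j a
    · exact map_zero e
  have ezi : ∀ (p : Prop) [Decidable p] j k a b, e (if p then ⁅Y j a, X k b⁆ else 0) =
      if p then ⁅Y' j a, X' k b⁆ else 0 := by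
    intro p _ j k a b
    split_ifs
    · exact ez j k a b
    · exact map_zero e
  have key : ∀ a b : L, e ⁅a, b⁆ = ⁅e a, e b⁆ := by
    intro a b
    have ha : a ∈ Submodule.span ℝ _ := h.span (Submodule.mem_top (x := a))
    have hb : b ∈ Submodule.span ℝ _ := h.span (Submodule.mem_top (x := b))
    induction ha using Submodule.span_induction with
    | mem a ha =>
      induction hb using Submodule.span_induction with
      | mem b hb =>
        rcases ha with (⟨⟨i, s⟩, rfl⟩ | ⟨⟨i, s⟩, rfl⟩) | ⟨⟨⟨i, s⟩, ⟨i', s'⟩⟩, rfl⟩ <;>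
          rcases hb with (⟨⟨j, t⟩, rfl⟩ | ⟨⟨j, t⟩, rfl⟩) | ⟨⟨⟨j, t⟩, ⟨j', t'⟩⟩, rfl⟩ <;>
          simp only [ex, ey, ez]
        · rw [h.xx, h'.xx, map_zero]
        · rw [← lie_skew, ← lie_skew (X' i s), map_neg, ez]
        · rw [← lie_skew, ← lie_skew (X' i s), map_neg, h.yxx, h'.yxx]
          simp only [map_sub, map_neg, exi]
        · rw [h.yy, h'.yy, map_zero]
        · rw [← lie_skew, ← lie_skew (Y' i s), map_neg, h.yxy, h'.yxy]
          simp only [map_add, eyi]
        · rw [h.yxx, h'.yxx]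
          simp only [map_sub, map_neg, exi]
        · rw [h.yxy, h'.yxy]
          simp only [map_add, eyi]
        · rw [h.exex, h'.exex]
          simp only [map_sub, ezi]
      | zero => rw [lie_zero, map_zero, lie_zero]
      | add b b' _ _ h1 h2 => rw [lie_add, map_add, map_add, lie_add, h1, h2]
      | smul c b _ h1 => rw [lie_smul, map_smul, map_smul, lie_smul, h1]
    | zero => rw [zero_lie, map_zero, zero_lie]
    | add a a' _ _ h1 h2 => rw [add_lie, map_add, map_add, add_lie, h1, h2]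
    | smul c a _ h1 => rw [smul_lie, map_smul, map_smul, smul_lie, h1]
  exact ⟨{ e with map_lie' := fun {a b} => key a b }⟩

end Pool.Agent.Helper77.TZ2
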