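import Pool.Agent.Helper69.SLN.Root
import Pool.Agent.Helper77.TZ2.Dat2

/-!
# Project TZ, block T1c: relations in the root spaces, type `A`

`κ` the Killing form, `X j a` of weight `β_j`, `κ(X j a, θ (X j b)) = -(2/q) Re (a b̄)`.
-/

set_option autoImplicit false

open Matrix

namespace Pool.Agent.Helper77.TZ2

open Pool.Agent.Helper96.SA Pool.Agent.Helper96.TO Pool.Agent.Helper69.SLN

variable {L : Type} [LieRing L] [LieAlgebra ℝ L] {N : ℕ} {θ : L ≃ₗ⁅ℝ⁆ L} {b : Module.Basis (Fin N) ℝ L} {A : Submodule ℝ L}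

theorem kf_comm (x y : L) : killingForm ℝ L x y = killingForm ℝ L y x := LieModule.traceForm_comm ℝ L L x y

theorem kf_inv (x y z : L) : killingForm ℝ L ⁅x, y⁆ z = killingForm ℝ L x ⁅y, z⁆ :=
  LieModule.traceForm_apply_lie_apply ℝ L L x y z

theorem kf_theta (θ : L ≃ₗ⁅ℝ⁆ L) (x y : L) : killingForm ℝ L (θ x) (θ y) = killingForm ℝ L x y :=
  LieAlgebra.killingForm_of_equiv_apply θ x y

/-- The context. -/
structure Ctx (θ : L ≃ₗ⁅ℝ⁆ L) (b : Module.Basis (Fin N) ℝ L) (A : Submodule ℝ L) {r : ℕ} (τ : Module.Dual ℝ A ≃ₗ[ℝ] A)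
    (B : Module.Basis (Fin r) ℝ (Module.Dual ℝ A)) (q : ℝ) : Prop where
  h : CartanBasis θ b
  hA : MaxFlat θ A
  hB : RootA B (rootsL A)
  hτ : ∀ (φ : Module.Dual ℝ A) (a : A), killingForm ℝ L (τ φ : L) (a : L) = φ a
  qpos : 0 < q
  hq : ∀ j k, B k (τ (B j)) = (q / 2) * (1 + if j = k then 1 else 0)

section tau

variable {τ : Module.Dual ℝ A ≃ₗ[ℝ] A} (hτ : ∀ (φ : Module.Dual ℝ A) (a : A), killingForm ℝ L (τ φ : L) (a : L) = φ a)

include hτ in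
theorem lie_theta_add (h : CartanBasis θ b) (hA : MaxFlat θ A) {φ : Module.Dual ℝ A} {x x' : L}
    (hx : Wv A φ x) (hx' : Wv A φ x') : ⁅x, θ x'⁆ + ⁅x', θ x⁆ = (2 * killingForm ℝ L x (θ x')) • (τ φ : L) := by
  have h0 : ∀ y : L, Wv A 0 y → ∀ a ∈ A, ⁅y, a⁆ = 0 := by
    intro y hy a ha
    have := hy ⟨a, ha⟩
    rw [LinearMap.zero_apply, zero_smul] at this
    rw [← lie_skew, this, neg_zero]
  have w1 : Wv A 0 ⁅x, θ x'⁆ := by
    have := hx.lie (hx'.theta hA)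
    rwa [add_neg_cancel] at this
  have w2 : Wv A 0 ⁅x', θ x⁆ := by
    have := hx'.lie (hx.theta hA)
    rwa [add_neg_cancel] at this
  have h2 : ⁅x, θ x'⁆ + ⁅x', θ x⁆ ∈ A := by
    refine hA.max _ ?_ fun a ha => ?_
    · rw [map_add, LieEquiv.map_lie, LieEquiv.map_lie, h.invol, h.invol, neg_add, lie_skew, lie_skew, add_comm]
    · rw [add_lie, h0 _ w1 a ha, h0 _ w2 a ha, add_zero]
  have h3 : (⟨⁅x, θ x'⁆ + ⁅x', θ x⁆, h2⟩ : A) = (2 * killingForm ℝ L x (θ x')) • τ φ := by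
    apply kA_injective h hA
    ext a
    rw [map_smul, LinearMap.smul_apply, kA_apply, kA_apply, hτ]
    change killingForm ℝ L (⁅x, θ x'⁆ + ⁅x', θ x⁆) (a : L) = _
    have e1 : ∀ y y' : L, Wv A φ y → Wv A φ y' → killingForm ℝ L ⁅y, θ y'⁆ (a : L) = φ a * killingForm ℝ L y (θ y') := by
      intro y y' _ hy'
      rw [kf_inv, ← lie_skew, (hy'.theta hA) a, LinearMap.neg_apply, neg_smul, neg_neg, map_smul, smul_eq_mul]
    rw [map_add, LinearMap.add_apply, e1 _ _ hx hx', e1 _ _ hx' hx]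
    have e2 : killingForm ℝ L x' (θ x) = killingForm ℝ L x (θ x') := by
      rw [← kf_theta θ x' (θ x), h.invol, kf_comm]
    rw [e2, smul_eq_mul]
    ring
  exact congrArg Subtype.val h3

include hτ in
theorem lie_theta_self (h : CartanBasis θ b) (hA : MaxFlat θ A) {φ : Module.Dual ℝ A} {x : L}
    (hx : Wv A φ x) : ⁅x, θ x⁆ = killingForm ℝ L x (θ x) • (τ φ : L) := by
  have h1 := lie_theta_add hτ h hA hx hx
  rw [← two_smul ℝ, mul_smul] at h1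
  exact smul_right_injective L (two_ne_zero' ℝ) h1

include hτ in
/-- The relation `2 (β, α) = (α, α)`, any multiplicities. -/
theorem rel2 (h : CartanBasis θ b) (hA : MaxFlat θ A) {α β : Module.Dual ℝ A}
    (hα : α ∈ rootsL A) (hβ : β ∈ rootsL A) (hs : β - α ∈ rootsL A) (hp : α + β ∉ rootsL A) (hp0 : α + β ≠ 0)
    (hm : β - α - α ∉ rootsL A) (hm0 : β - α - α ≠ 0) : 2 * β (τ α) = α (τ α) := by
  obtain ⟨hα0, x, hx0, hx⟩ := hα
  obtain ⟨hβ0, z, hz0, hz⟩ := hβ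
  obtain ⟨-, w, hw0, hw⟩ := hs
  change Wv A α x at hx
  change Wv A β z at hz
  change Wv A (β - α) w at hw
  have hposα := tau_pos hτ h hA hα0
  obtain ⟨y, hy⟩ : ∃ y, y = -θ x := ⟨_, rfl⟩
  have hyw : Wv A (-α) y := by
    rw [hy]
    exact (hx.theta hA).neg
  obtain ⟨κ, hκ⟩ : ∃ κ, κ = killingForm ℝ L x y := ⟨_, rfl⟩
  have hκp : 0 < κ := by
    rw [hκ, hy, map_neg]
    exact pos h hx0
  have hxy : ⁅x, y⁆ = κ • (τ α : L) := by
    rw [hκ, hy, lie_neg, lie_theta_self hτ h hA hx, map_neg, neg_smul]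
  have hyx : ⁅y, x⁆ = -(κ • (τ α : L)) := by
    rw [← lie_skew, hxy]
  by_contra hcon
  -- (a)
  have ha : β (τ α) = 0 := by
    have e1 : ⁅x, z⁆ = 0 := (hx.lie hz).eq_zero hp hp0
    have hw' : Wv A (β - α) ⁅y, z⁆ := by
      have := hyw.lie hz
      rwa [neg_add_eq_sub] at this
    have e2 : ⁅x, ⁅y, z⁆⁆ = (κ * β (τ α)) • z := by
      rw [leibniz_lie, hxy, e1, lie_zero, add_zero, smul_lie, hz (τ α), smul_smul]
    have e3 : ⁅y, ⁅y, z⁆⁆ = 0 := by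
      have := hyw.lie hw'
      rw [neg_add_eq_sub] at this
      exact this.eq_zero hm hm0
    have e4 : (κ * (β - α) (τ α) + κ * β (τ α)) • ⁅y, z⁆ = 0 := by
      have h2 : ⁅x, ⁅y, ⁅y, z⁆⁆⁆ = 0 := by rw [e3, lie_zero]
      rw [leibniz_lie, hxy, e2, smul_lie, hw' (τ α), lie_smul, smul_smul, ← add_smul] at h2
      exact h2
    rcases smul_eq_zero.1 e4 with h2 | h2
    · exfalso
      apply hcon
      rw [LinearMap.sub_apply, ← mul_add] at h2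
      have := (mul_eq_zero.1 h2).resolve_left hκp.ne'
      linarith
    · rw [h2, lie_zero] at e2
      have := (smul_eq_zero.1 e2.symm).resolve_right hz0
      exact (mul_eq_zero.1 this).resolve_left hκp.ne'
  have hb : (β - α) (τ α) = 0 := by
    have e1 : ⁅y, w⁆ = 0 := by
      have := hyw.lie hw
      rw [neg_add_eq_sub] at this
      exact this.eq_zero hm hm0
    have hz' : Wv A β ⁅x, w⁆ := by
      have := hx.lie hw
      rwa [add_sub_cancel] at this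
    have e2 : ⁅y, ⁅x, w⁆⁆ = -((κ * (β - α) (τ α)) • w) := by
      rw [leibniz_lie, hyx, e1, lie_zero, add_zero, neg_lie, smul_lie, hw (τ α), smul_smul]
    have e3 : ⁅x, ⁅x, w⁆⁆ = 0 := (hx.lie hz').eq_zero hp hp0
    have e4 : (κ * β (τ α) + κ * (β - α) (τ α)) • ⁅x, w⁆ = 0 := by
      have h2 : ⁅y, ⁅x, ⁅x, w⁆⁆⁆ = 0 := by rw [e3, lie_zero]
      rw [leibniz_lie, hyx, e2, neg_lie, smul_lie, hz' (τ α), lie_neg, lie_smul, smul_smul, ← neg_add, ← add_smul, neg_eq_zero] at h2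
      exact h2
    rcases smul_eq_zero.1 e4 with h2 | h2
    · exfalso
      apply hcon
      rw [LinearMap.sub_apply, ← mul_add] at h2
      have := (mul_eq_zero.1 h2).resolve_left hκp.ne'
      linarith
    · rw [h2, lie_zero] at e2
      have := (smul_eq_zero.1 (neg_eq_zero.1 e2.symm)).resolve_right hw0
      exact (mul_eq_zero.1 this).resolve_left hκp.ne'
  rw [LinearMap.sub_apply, ha, zero_sub, neg_eq_zero] at hb
  exact hposα.ne' hb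

end tau

/-- The context exists. -/
theorem exists_ctx (h : CartanBasis θ b) (hA : MaxFlat θ A) (h2 : 1 ≤ Module.finrank ℝ A) (hT : IsTypeA (rootsL A)) :
    ∃ (τ : Module.Dual ℝ A ≃ₗ[ℝ] A) (B : Module.Basis (Fin (Module.finrank ℝ A)) ℝ (Module.Dual ℝ A)) (q : ℝ), Ctx θ b A τ B q := by
  have hF : Module.Finite ℝ L := Module.Finite.of_basis b
  have hne := roots_nonempty h hA h2
  obtain ⟨B, hB⟩ := exists_rootA hT (span_roots h hA) hne (r := Module.finrank ℝ A) Subspace.dual_finrank_eq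
  obtain ⟨τ, hτ⟩ := exists_tau h hA
  have hBr : ∀ j, B j ∈ rootsL A := fun j => by rw [hB]; exact Or.inl ⟨j, rfl⟩
  have hBs : ∀ j k, j ≠ k → B k - B j ∈ rootsL A := fun j k hjk => by rw [hB]; exact Or.inr (Or.inr ⟨j, k, hjk, rfl⟩)
  have hrel : ∀ j k, j ≠ k → 2 * B k (τ (B j)) = B j (τ (B j)) := by
    intro j k hjk
    exact rel2 hτ h hA (hBr j) (hBr k) (hBs j k hjk) (hB.not_add j k).1 (hB.not_add j k).2 (hB.not_sub hjk).1 (hB.not_sub hjk).2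
  obtain ⟨j0⟩ : Nonempty (Fin (Module.finrank ℝ A)) := ⟨⟨0, h2⟩⟩
  obtain ⟨q, hq⟩ : ∃ q, q = B j0 (τ (B j0)) := ⟨_, rfl⟩
  have hqp : 0 < q := by
    rw [hq]
    exact tau_pos hτ h hA (hBr j0).1
  have hqj : ∀ j, B j (τ (B j)) = q := by
    intro j
    by_cases hj : j = j0
    · rw [hj, hq]
    · rw [hq, ← hrel j0 j (fun h => hj h.symm), ← hrel j j0 hj, tau_symm hτ]
  refine ⟨τ, B, q, h, hA, hB, hτ, hqp, ?_⟩
  intro j k
  split_ifs with hjk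
  · rw [← hjk, hqj]; ring
  · have := hrel j k hjk
    rw [hqj] at this
    linarith

namespace Ctx

variable {r : ℕ} {τ : Module.Dual ℝ A ≃ₗ[ℝ] A} {B : Module.Basis (Fin r) ℝ (Module.Dual ℝ A)} {q : ℝ}

theorem hq_ne (c : Ctx θ b A τ B q) {j k : Fin r} (hjk : j ≠ k) : B k (τ (B j)) = q / 2 := by
  rw [c.hq, if_neg hjk]; ring

theorem hq_self (c : Ctx θ b A τ B q) (j : Fin r) : B j (τ (B j)) = q := by
  rw [c.hq, if_pos rfl]; ring

/-- `[[x, θ x'] + [x', θ x], u] = 2 κ(x, θ x') ψ(τ β_j) u` -/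
theorem act (c : Ctx θ b A τ B q) {j : Fin r} {x x' u : L} {ψ : Module.Dual ℝ A} (hx : Wv A (B j) x) (hx' : Wv A (B j) x')
    (hu : Wv A ψ u) : ⁅⁅x, θ x'⁆, u⁆ + ⁅⁅x', θ x⁆, u⁆ = (2 * killingForm ℝ L x (θ x') * ψ (τ (B j))) • u := by
  rw [← add_lie, lie_theta_add c.hτ c.h c.hA hx hx', smul_lie, hu (τ (B j)), smul_smul]

theorem act_self (c : Ctx θ b A τ B q) {j : Fin r} {x u : L} {ψ : Module.Dual ℝ A} (hx : Wv A (B j) x)
    (hu : Wv A ψ u) : ⁅⁅x, θ x⁆, u⁆ = (killingForm ℝ L x (θ x) * ψ (τ (B j))) • u := by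
  rw [lie_theta_self c.hτ c.h c.hA hx, smul_lie, hu (τ (B j)), smul_smul]

/-- the identity (I) -/
theorem idI (c : Ctx θ b A τ B q) {j k : Fin r} (hjk : j ≠ k) {x x' z : L} (hx : Wv A (B j) x) (hx' : Wv A (B j) x')
    (hz : Wv A (B k - B j) z) : ⁅θ x', ⁅x, z⁆⁆ + ⁅θ x, ⁅x', z⁆⁆ = (q * killingForm ℝ L x (θ x')) • z := by
  have h1 : ∀ y : L, Wv A (B j) y → ⁅θ y, z⁆ = 0 := by
    intro y hy
    have := (hy.theta c.hA).lie hz
    rw [neg_add_eq_sub] at this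
    exact this.eq_zero (c.hB.not_sub hjk).1 (c.hB.not_sub hjk).2
  have h2 := c.act hx hx' hz
  rw [LinearMap.sub_apply, c.hq_ne hjk, c.hq_self] at h2
  have h3 : ⁅θ x', ⁅x, z⁆⁆ = -⁅⁅x, θ x'⁆, z⁆ := by
    rw [leibniz_lie, h1 x' hx', lie_zero, add_zero, ← lie_skew (θ x') x, neg_lie]
  have h4 : ⁅θ x, ⁅x', z⁆⁆ = -⁅⁅x', θ x⁆, z⁆ := by
    rw [leibniz_lie, h1 x hx, lie_zero, add_zero, ← lie_skew (θ x) x', neg_lie]
  rw [h3, h4, ← neg_add, h2, ← neg_smul]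
  congr 1
  ring

/-- norms of products -/
theorem norm_mul (c : Ctx θ b A τ B q) {j k : Fin r} (hjk : j ≠ k) {x x' z : L} (hx : Wv A (B j) x) (hx' : Wv A (B j) x')
    (hz : Wv A (B k - B j) z) : 2 * killingForm ℝ L ⁅x, z⁆ (θ ⁅x', z⁆) =
      -(q * killingForm ℝ L x (θ x') * killingForm ℝ L z (θ z)) := by
  have e : ∀ y y' : L, killingForm ℝ L ⁅y, z⁆ (θ ⁅y', z⁆) = -killingForm ℝ L ⁅θ y', ⁅y, z⁆⁆ (θ z) := by
    intro y y'
    rw [LieEquiv.map_lie, ← kf_inv, ← lie_skew ⁅y, z⁆, map_neg, LinearMap.neg_apply]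
  have h1 := c.idI hjk hx hx' hz
  have h2 : killingForm ℝ L ⁅x', z⁆ (θ ⁅x, z⁆) = killingForm ℝ L ⁅x, z⁆ (θ ⁅x', z⁆) := by
    rw [← kf_theta θ ⁅x', z⁆, c.h.invol, kf_comm]
  have h3 : killingForm ℝ L ⁅x, z⁆ (θ ⁅x', z⁆) + killingForm ℝ L ⁅x', z⁆ (θ ⁅x, z⁆) =
      -(q * killingForm ℝ L x (θ x') * killingForm ℝ L z (θ z)) := by
    rw [e x x', e x' x, ← neg_add, ← LinearMap.add_apply, ← map_add, h1, map_smul, LinearMap.smul_apply, smul_eq_mul]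
  rw [h2] at h3
  linarith

/-- The data `X j : ℂ → L`. -/
structure Good (c : Ctx θ b A τ B q) (X : Fin r → ℂ →ₗ[ℝ] L) : Prop where
  w : ∀ j a, Wv A (B j) (X j a)
  n : ∀ j a a', killingForm ℝ L (X j a) (θ (X j a')) = -(2 / q) * (a * (starRingEnd ℂ) a').re
  r1 : ∀ j k, j ≠ k → ⁅X j Complex.I, ⁅-θ (X j 1), X k 1⁆⁆ = X k Complex.I

/-- `Y j a = -θ (X j ā)` -/
noncomputable def YY (θ : L ≃ₗ⁅ℝ⁆ L) (X : Fin r → ℂ →ₗ[ℝ] L) (j : Fin r) : ℂ →ₗ[ℝ] L :=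
  -((θ : L →ₗ[ℝ] L) ∘ₗ X j ∘ₗ (Complex.conjAe : ℂ →ₗ[ℝ] ℂ))

theorem YY_apply (θ : L ≃ₗ⁅ℝ⁆ L) (X : Fin r → ℂ →ₗ[ℝ] L) (j : Fin r) (a : ℂ) :
    YY θ X j a = -θ (X j ((starRingEnd ℂ) a)) := rfl

theorem YY_one (θ : L ≃ₗ⁅ℝ⁆ L) (X : Fin r → ℂ →ₗ[ℝ] L) (j : Fin r) : YY θ X j 1 = -θ (X j 1) := by
  rw [YY_apply, map_one]

theorem YY_I (θ : L ≃ₗ⁅ℝ⁆ L) (X : Fin r → ℂ →ₗ[ℝ] L) (j : Fin r) : YY θ X j Complex.I = θ (X j Complex.I) := by
  rw [YY_apply, Complex.conj_I, map_neg, map_neg, neg_neg]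

/-- linear in `a ∈ ℂ` and determined by `1`, `i` -/
theorem ext_c {V : Type*} [AddCommGroup V] [Module ℝ V] {f g : ℂ →ₗ[ℝ] V} (h1 : f 1 = g 1) (hI : f Complex.I = g Complex.I)
    (a : ℂ) : f a = g a := by
  have e : f = g := by
    apply Complex.basisOneI.ext
    intro i
    fin_cases i
    · simpa using h1
    · simpa using hI
  rw [e]

end Ctx

end Pool.Agent.Helper77.TZ2
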