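import Pool.Agent.Helper77.TZ2.Rel

/-!
# Project TZ, block T1c: the relations
-/

set_option autoImplicit false

open Matrix

namespace Pool.Agent.Helper77.TZ2

open Pool.Agent.Helper96.SA Pool.Agent.Helper96.TO Pool.Agent.Helper69.SLN

variable {L : Type} [LieRing L] [LieAlgebra ℝ L] {N : ℕ} {θ : L ≃ₗ⁅ℝ⁆ L} {b : Module.Basis (Fin N) ℝ L} {A : Submodule ℝ L}

theorem dec {V : Type*} [AddCommGroup V] [Module ℝ V] (f : ℂ →ₗ[ℝ] V) (a : ℂ) : f a = a.re • f 1 + a.im • f Complex.I := by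
  conv_lhs => rw [← Complex.re_add_im a]
  have e1 : (a.re : ℂ) = a.re • (1 : ℂ) := by rw [Complex.real_smul, mul_one]
  have e2 : (a.im : ℂ) * Complex.I = a.im • Complex.I := by rw [Complex.real_smul]
  rw [map_add, e1, e2, map_smul, map_smul]

namespace Ctx.Good

variable {r : ℕ} {τ : Module.Dual ℝ A ≃ₗ[ℝ] A} {B : Module.Basis (Fin r) ℝ (Module.Dual ℝ A)} {q : ℝ}
  {c : Ctx θ b A τ B q} {X : Fin r → ℂ →ₗ[ℝ] L}

theorem wY (g : Good c X) (j : Fin r) (a : ℂ) : Wv A (-B j) (YY θ X j a) := by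
  rw [YY_apply]
  exact ((g.w j _).theta c.hA).neg

theorem xx (g : Good c X) (j k : Fin r) (a a' : ℂ) : ⁅X j a, X k a'⁆ = 0 :=
  ((g.w j a).lie (g.w k a')).eq_zero (c.hB.not_add j k).1 (c.hB.not_add j k).2

theorem yy (g : Good c X) (j k : Fin r) (a a' : ℂ) : ⁅YY θ X j a, YY θ X k a'⁆ = 0 := by
  have h3 := (g.wY j a).lie (g.wY k a')
  rw [← neg_add] at h3
  refine h3.eq_zero (fun h4 => (c.hB.not_add j k).1 ?_) (neg_ne_zero.2 (c.hB.not_add j k).2)
  have := c.hB.neg h4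
  rwa [neg_neg] at this

theorem wE (g : Good c X) (j k : Fin r) (a a' : ℂ) : Wv A (B k - B j) ⁅YY θ X j a, X k a'⁆ := by
  have := (g.wY j a).lie (g.w k a')
  rwa [neg_add_eq_sub] at this

theorem n1 (g : Good c X) (j : Fin r) : killingForm ℝ L (X j 1) (θ (X j 1)) = -(2 / q) := by
  rw [g.n, map_one, mul_one, Complex.one_re, mul_one]

theorem nI (g : Good c X) (j : Fin r) : killingForm ℝ L (X j Complex.I) (θ (X j Complex.I)) = -(2 / q) := by
  rw [g.n, Complex.conj_I, mul_neg, Complex.I_mul_I, neg_neg, Complex.one_re, mul_one]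

theorem n1I (g : Good c X) (j : Fin r) : killingForm ℝ L (X j 1) (θ (X j Complex.I)) = 0 := by
  rw [g.n, Complex.conj_I, one_mul, Complex.neg_re, Complex.I_re, neg_zero, mul_zero]

theorem r1_one (g : Good c X) {j k : Fin r} (hjk : j ≠ k) (a : ℂ) : ⁅X j 1, ⁅YY θ X j 1, X k a⁆⁆ = X k a := by
  have hq := c.qpos
  rw [leibniz_lie, g.xx, lie_zero, add_zero, YY_one, lie_neg, neg_lie, c.act_self (g.w j 1) (g.w k a), g.n1, c.hq_ne hjk,
    ← neg_smul]
  have : -(-(2 / q) * (q / 2)) = 1 := by field_simp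
  rw [this, one_smul]

theorem r1_I (g : Good c X) {j k : Fin r} (hjk : j ≠ k) : ⁅X j Complex.I, ⁅YY θ X j 1, X k 1⁆⁆ = X k Complex.I := by
  rw [YY_one]
  exact g.r1 j k hjk

theorem r2_I_one (g : Good c X) {j k : Fin r} (hjk : j ≠ k) : ⁅YY θ X j Complex.I, X k 1⁆ = ⁅YY θ X j 1, X k Complex.I⁆ := by
  have h1 := c.idI hjk (g.w j 1) (g.w j Complex.I) (g.wE j k 1 1)
  rw [g.r1_one hjk, g.r1_I hjk, g.n1I, mul_zero, zero_smul] at h1
  rw [YY_I, YY_one, neg_lie]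
  exact eq_neg_of_add_eq_zero_left h1

theorem r2_I_I (g : Good c X) {j k : Fin r} (hjk : j ≠ k) : ⁅YY θ X j Complex.I, X k Complex.I⁆ = -⁅YY θ X j 1, X k 1⁆ := by
  have hq := c.qpos
  have h1 := c.idI hjk (g.w j Complex.I) (g.w j Complex.I) (g.wE j k 1 1)
  rw [g.r1_I hjk, g.nI, ← two_smul ℝ] at h1
  have : q * -(2 / q) = 2 * (-1) := by field_simp
  rw [this, mul_smul, neg_one_smul] at h1
  rw [YY_I]
  exact smul_right_injective L (two_ne_zero' ℝ) h1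

theorem r2 (g : Good c X) {j k : Fin r} (hjk : j ≠ k) (a a' : ℂ) : ⁅YY θ X j a, X k a'⁆ = ⁅YY θ X j 1, X k (a * a')⁆ := by
  rw [dec (YY θ X j) a, dec (X k) a', dec (X k) (a * a')]
  simp only [add_lie, lie_add, smul_lie, lie_smul, g.r2_I_one hjk, g.r2_I_I hjk, Complex.mul_re, Complex.mul_im]
  module

theorem r1_II (g : Good c X) {j k : Fin r} (hjk : j ≠ k) : ⁅X j Complex.I, ⁅YY θ X j 1, X k Complex.I⁆⁆ = -X k 1 := by
  have hq := c.qpos
  rw [← g.r2_I_one hjk, leibniz_lie, g.xx, lie_zero, add_zero, YY_I, c.act_self (g.w j Complex.I) (g.w k 1), g.nI, c.hq_ne hjk]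
  have : -(2 / q) * (q / 2) = -1 := by field_simp
  rw [this, neg_one_smul]

theorem r1' (g : Good c X) {j k : Fin r} (hjk : j ≠ k) (a a' : ℂ) : ⁅X j a, ⁅YY θ X j 1, X k a'⁆⁆ = X k (a * a') := by
  rw [dec (X j) a, dec (X k) a', dec (X k) (a * a')]
  simp only [add_lie, lie_add, smul_lie, lie_smul, g.r1_one hjk, g.r1_I hjk, g.r1_II hjk, Complex.mul_re, Complex.mul_im]
  module

theorem theta_X (g : Good c X) (j : Fin r) (a : ℂ) : θ (X j a) = -YY θ X j ((starRingEnd ℂ) a) := by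
  rw [YY_apply, Complex.conj_conj, neg_neg]

theorem theta_Y (g : Good c X) (j : Fin r) (a : ℂ) : θ (YY θ X j a) = -X j ((starRingEnd ℂ) a) := by
  rw [YY_apply, map_neg, c.h.invol]

theorem r3 (g : Good c X) {j l : Fin r} (hjl : l ≠ j) (a a' : ℂ) : ⁅⁅YY θ X l 1, X j a⁆, YY θ X j a'⁆ = YY θ X l (a * a') := by
  have h1 := congrArg θ (g.r1' (j := j) (k := l) hjl.symm ((starRingEnd ℂ) a') ((starRingEnd ℂ) a))
  rw [LieEquiv.map_lie, LieEquiv.map_lie, g.theta_X, g.theta_X, g.theta_X, g.theta_Y, map_one, Complex.conj_conj, Complex.conj_conj,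
    neg_lie, neg_lie, lie_neg, neg_neg, lie_neg, lie_neg, neg_inj, map_mul, Complex.conj_conj, Complex.conj_conj,
    ← lie_skew (X j 1), g.r2 hjl, mul_one, lie_neg, lie_skew, mul_comm a' a] at h1
  exact h1

/-- `j = k ≠ l` -/
theorem yxx_a (g : Good c X) {j l : Fin r} (hjl : j ≠ l) (a a' d : ℂ) : ⁅⁅YY θ X j a, X j a'⁆, X l d⁆ = -X l (a * a' * d) := by
  rw [lie_lie, g.xx, lie_zero, zero_sub, g.r2 hjl, g.r1' hjl]
  congr 2
  ring

theorem yxy_a (g : Good c X) {j l : Fin r} (hjl : j ≠ l) (a a' d : ℂ) : ⁅⁅YY θ X j a, X j a'⁆, YY θ X l d⁆ = YY θ X l (a * a' * d) := by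
  rw [lie_lie, g.yy, lie_zero, sub_zero, ← lie_skew (X j a'), g.r2 hjl.symm, lie_neg, lie_skew, g.r3 hjl.symm]
  congr 1
  ring

theorem yxx_b (g : Good c X) {j l : Fin r} (hjl : j ≠ l) (a a' d : ℂ) : ⁅⁅YY θ X j a, X j a'⁆, X j d⁆ = -X j (a * a' * d) - X j (a * a' * d) := by
  have e1 : ⁅X j a', ⁅YY θ X l 1, X j d⁆⁆ = 0 := by
    have h3 := (g.w j a').lie (g.wE l j 1 d)
    rw [add_comm] at h3
    exact h3.eq_zero (c.hB.not_three hjl.symm hjl.symm).1 (c.hB.not_three hjl.symm hjl.symm).2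
  have e2 : ⁅⁅YY θ X j a, X j a'⁆, ⁅YY θ X l 1, X j d⁆⁆ = -⁅YY θ X l 1, X j (a * a' * d)⁆ := by
    rw [lie_lie, e1, lie_zero, zero_sub, ← lie_skew (YY θ X j a), g.r3 hjl.symm, lie_neg, neg_neg, ← lie_skew, g.r2 hjl.symm]
    congr 3
    ring
  have e3 : X j d = ⁅X l 1, ⁅YY θ X l 1, X j d⁆⁆ := (g.r1_one hjl.symm d).symm
  rw [e3, leibniz_lie, g.yxx_a hjl, e2, neg_lie, lie_neg, g.r1' hjl.symm, g.r1' hjl.symm, mul_one, one_mul, sub_eq_add_neg]

theorem yxy_b (g : Good c X) {j l : Fin r} (hjl : j ≠ l) (a a' d : ℂ) : ⁅⁅YY θ X j a, X j a'⁆, YY θ X j d⁆ = YY θ X j (a * a' * d) + YY θ X j (a * a' * d) := by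
  have e1 : ⁅YY θ X j a, ⁅YY θ X j 1, X l 1⁆⁆ = 0 := by
    have h3 := (g.wY j a).lie (g.wE j l 1 1)
    rw [neg_add_eq_sub] at h3
    exact h3.eq_zero (c.hB.not_sub hjl).1 (c.hB.not_sub hjl).2
  have e2 : ⁅⁅YY θ X j a, X j a'⁆, ⁅YY θ X j 1, X l 1⁆⁆ = ⁅YY θ X j 1, X l (a * a')⁆ := by
    rw [lie_lie, e1, lie_zero, sub_zero, g.r1' hjl, mul_one, g.r2 hjl]
  have e3 : YY θ X j d = ⁅⁅YY θ X j 1, X l 1⁆, YY θ X l d⁆ := by rw [g.r3 hjl, one_mul]
  rw [e3, leibniz_lie, e2, g.yxy_a hjl, g.r3 hjl, g.r3 hjl, one_mul]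

theorem yxx (g : Good c X) (hr : 2 ≤ r) (j k l : Fin r) (a a' d : ℂ) : ⁅⁅YY θ X j a, X k a'⁆, X l d⁆ =
    -(if j = l then X k (a * a' * d) else 0) - (if j = k then X l (a * a' * d) else 0) := by
  by_cases hjk : j = k
  · subst hjk
    rw [if_pos rfl]
    by_cases hjl : j = l
    · subst hjl
      rw [if_pos rfl]
      obtain ⟨m, hm⟩ : ∃ m : Fin r, j ≠ m := by
        have : Nontrivial (Fin r) := Fin.nontrivial_iff_two_le.2 hr
        obtain ⟨m, hm⟩ := exists_ne j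
        exact ⟨m, hm.symm⟩
      exact g.yxx_b hm a a' d
    · rw [if_neg hjl, neg_zero, zero_sub]
      exact g.yxx_a hjl a a' d
  · rw [if_neg hjk, sub_zero]
    by_cases hjl : j = l
    · subst hjl
      rw [if_pos rfl, ← lie_skew, g.r2 hjk, g.r1' hjk]
      congr 2
      ring
    · rw [if_neg hjl, neg_zero]
      have h3 := (g.wE j k a a').lie (g.w l d)
      exact h3.eq_zero (c.hB.not_three hjk hjl).1 (c.hB.not_three hjk hjl).2

theorem yxy (g : Good c X) (hr : 2 ≤ r) (j k l : Fin r) (a a' d : ℂ) : ⁅⁅YY θ X j a, X k a'⁆, YY θ X l d⁆ =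
    (if k = l then YY θ X j (a * a' * d) else 0) + (if j = k then YY θ X l (a * a' * d) else 0) := by
  by_cases hjk : j = k
  · subst hjk
    rw [if_pos rfl]
    by_cases hjl : j = l
    · subst hjl
      rw [if_pos rfl]
      obtain ⟨m, hm⟩ : ∃ m : Fin r, j ≠ m := by
        have : Nontrivial (Fin r) := Fin.nontrivial_iff_two_le.2 hr
        obtain ⟨m, hm⟩ := exists_ne j
        exact ⟨m, hm.symm⟩
      exact g.yxy_b hm a a' d
    · rw [if_neg hjl, zero_add]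
      exact g.yxy_a hjl a a' d
  · rw [if_neg hjk, add_zero]
    by_cases hkl : k = l
    · subst hkl
      rw [if_pos rfl, g.r2 hjk, g.r3 hjk]
    · rw [if_neg hkl]
      have h3 := (g.wE j k a a').lie (g.wY l d)
      have e : B k - B j + -B l = -(B j - B k + B l) := by abel
      rw [e] at h3
      refine h3.eq_zero (fun h4 => (c.hB.not_three (fun h => hjk h.symm) hkl).1 ?_) (neg_ne_zero.2 (c.hB.not_three (fun h => hjk h.symm) hkl).2)
      have := c.hB.neg h4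
      rwa [neg_neg] at this

theorem nx (g : Good c X) (j : Fin r) (a : ℂ) (h : X j a = 0) : a = 0 := by
  have hq := c.qpos
  have h1 := g.n j a a
  rw [h, map_zero, LinearMap.zero_apply, Complex.mul_conj, Complex.ofReal_re] at h1
  have h2 : (2 / q) ≠ 0 := by positivity
  have h3 := (mul_eq_zero.1 h1.symm).resolve_left (neg_ne_zero.2 h2)
  exact Complex.normSq_eq_zero.1 h3

theorem ny (g : Good c X) (j : Fin r) (a : ℂ) (h : YY θ X j a = 0) : a = 0 := by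
  rw [YY_apply, neg_eq_zero] at h
  have h1 : X j ((starRingEnd ℂ) a) = 0 := by
    rw [← c.h.invol (X j ((starRingEnd ℂ) a)), h, map_zero]
  have h2 := g.nx j _ h1
  exact (map_eq_zero (starRingEnd ℂ)).1 h2

end Ctx.Good

end Pool.Agent.Helper77.TZ2
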